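import Pool.Agent.Helper25_CN3.Stmts

/-! Squad CN3, module W_WRD: words of reflections -/

noncomputable section

namespace Pool.Agent.CN3.H70

open Pool.Agent.H25Cong Pool.Agent.CON Pool.Agent.CN2 Pool.Agent.CN3

lemma word_prod (h1 : V_ROT) (n : ℕ) (a : Module.Basis (Fin (n + 1)) ℝ (V n))
    (G : List (List ℤ)) (hG : BG a G) (w : List (List ℤ)) (hw : ∀ r ∈ w, rootB G r = true) :
    ∃ g ∈ RefL (LL a), ∀ x : List ℤ, x.length = n + 1 →
      (rflW G w x).length = n + 1 ∧ g (lv a x) = lv a (rflW G w x) := by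
  induction w with
  | nil => exact ⟨1, Subgroup.one_mem _, fun x hx => ⟨hx, rfl⟩⟩
  | cons r w ih =>
    obtain ⟨g, hg, hgx⟩ := ih (fun s hs => hw s (List.mem_cons_of_mem _ hs))
    obtain ⟨_, hS, _, hx⟩ := h1 n a G r hG (hw r List.mem_cons_self)
    refine ⟨S (lv a r) * g, Subgroup.mul_mem _ hS hg, fun x hxl => ?_⟩
    obtain ⟨hl, he⟩ := hgx x hxl
    obtain ⟨hl', he'⟩ := hx (rflW G w x) hl
    refine ⟨hl', ?_⟩
    rw [LinearEquiv.mul_apply, he, he']
    rfl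

lemma glen (n : ℕ) (a : Module.Basis (Fin (n + 1)) ℝ (V n)) (G : List (List ℤ))
    (hG : BG a G) : G.length = n + 1 := by
  have h := hG.sym
  unfold symB at h
  simp only [Bool.and_eq_true, decide_eq_true_eq] at h
  exact h.1.1.1

/-- module W_WRD -/
theorem w_wrd (h1 : V_ROT) (h2 : V_MEM) : W_WRD := by
  intro n a G q π w hG hw
  have hlen := glen n a G hG
  unfold wrdB at hw
  simp only [Bool.and_eq_true, decide_eq_true_eq, List.all_eq_true, List.mem_range] at hw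
  obtain ⟨⟨⟨hr, h0⟩, h1'⟩, hq⟩ := hw
  obtain ⟨g, hg, hgx⟩ := word_prod h1 n a G hG w hr
  have hu : ∀ k, lv a (uv (n + 1) k) = av a k := (h2 n a).2.2.1
  have hul : ∀ k, (uv (n + 1) k).length = n + 1 := fun k => by simp [uv]
  rw [hlen] at h0 h1' hq
  refine ⟨g, hg, ?_, ?_, ?_⟩
  · rw [← hu 0, (hgx _ (hul 0)).2, h0]
  · rw [← hu 1, (hgx _ (hul 1)).2, h1']
  · intro i hi
    rw [← hu (2 + i), (hgx _ (hul (2 + i))).2, hq i hi, hu]

end Pool.Agent.CN3.H70

end
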